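import Pool.Agent.H44.GT.Targets

/-!
# Dilation surfaces of genus at most two: the slopes of the second kind are a null set (U_0)
-/

set_option autoImplicit false

namespace Pool.Agent.H35.GD

open Pool.Agent.H44.DU MeasureTheory Filter Topology

theorem xl_le_xi {n : ℕ} (S : Surf n) (t : ℝ) (i : Fin n) (k : Fin 3) :
    S.xl t i ≤ xi t (S.v i k) := by
  unfold Surf.xl
  fin_cases k
  · exact min_le_left _ _
  · exact (min_le_right _ _).trans (min_le_left _ _)
  · exact (min_le_right _ _).trans (min_le_right _ _)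

theorem xi_le_xr {n : ℕ} (S : Surf n) (t : ℝ) (i : Fin n) (k : Fin 3) :
    xi t (S.v i k) ≤ S.xr t i := by
  unfold Surf.xr
  fin_cases k
  · exact le_max_left _ _
  · exact (le_max_left _ _).trans (le_max_right _ _)
  · exact (le_max_right _ _).trans (le_max_right _ _)

/-- A set of positive measure has positive measure on both sides of some point. -/
theorem split_pos {E : Set ℝ} (hE : volume E ≠ 0) :
    ∃ p : ℝ, 0 < volume (E ∩ Set.Iio p) ∧ 0 < volume (E ∩ Set.Ioi p) := by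
  obtain ⟨x, _, hx⟩ := exists_mem_forall_mem_nhdsWithin_pos_measure hE
  have hE' : volume (E \ {x}) ≠ 0 := by
    rwa [measure_sdiff_null (measure_singleton x)]
  obtain ⟨y, hyE, hy⟩ := exists_mem_forall_mem_nhdsWithin_pos_measure hE'
  have hyx : y ≠ x := fun h => hyE.2 h
  have key : ∀ (u : ℝ) (U : Set ℝ), U ∈ 𝓝 u → (u = x ∨ u = y) → 0 < volume (E ∩ U) := by
    intro u U hU h
    rcases h with h | h
    · subst h
      exact hx _ (inter_mem self_mem_nhdsWithin (mem_nhdsWithin_of_mem_nhds hU))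
    · subst h
      have h1 := hy ((E \ {x}) ∩ U)
        (inter_mem self_mem_nhdsWithin (mem_nhdsWithin_of_mem_nhds hU))
      exact h1.trans_le (measure_mono (Set.inter_subset_inter_left _ Set.sdiff_subset))
  refine ⟨(x + y) / 2, ?_, ?_⟩
  · rcases lt_or_gt_of_ne hyx with h | h
    · exact key y _ (Iio_mem_nhds (by linarith)) (Or.inr rfl)
    · exact key x _ (Iio_mem_nhds (by linarith)) (Or.inl rfl)
  · rcases lt_or_gt_of_ne hyx with h | h
    · exact key x _ (Ioi_mem_nhds (by linarith)) (Or.inl rfl)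
    · exact key y _ (Ioi_mem_nhds (by linarith)) (Or.inr rfl)

/-- A set of positive measure has two points such that it has positive measure between them. -/
theorem two_pts {E : Set ℝ} (hE : volume E ≠ 0) :
    ∃ α ∈ E, ∃ β ∈ E, α < β ∧ 0 < volume (E ∩ Set.Ioo α β) := by
  obtain ⟨p, h1, h2⟩ := split_pos hE
  obtain ⟨q, h3, h4⟩ := split_pos h2.ne'
  obtain ⟨α, hα, hαp⟩ := nonempty_of_measure_ne_zero h1.ne'
  obtain ⟨β, ⟨hβ, _⟩, hβq⟩ := nonempty_of_measure_ne_zero h4.ne'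
  obtain ⟨m, ⟨_, hm1⟩, hm2⟩ := nonempty_of_measure_ne_zero h3.ne'
  have hαp' : α < p := hαp
  have hβq' : q < β := hβq
  have hm1' : p < m := hm1
  have hm2' : m < q := hm2
  refine ⟨α, hα, β, hβ, by linarith, h3.trans_le (measure_mono ?_)⟩
  rintro z ⟨⟨hz1, hz2⟩, hz3⟩
  have hz2' : p < z := hz2
  have hz3' : z < q := hz3
  exact ⟨hz1, by linarith, by linarith⟩

/-- The null measurability of the set of the slopes of the second kind without densities. -/
theorem null_meas (hE0 : E_0) (hHYO : M_HYO) (hKM : M_KM) (n : ℕ) (S : Surf n)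
    (hconn : S.Connected) (hnt : ¬ S.Transl) (hn : 0 < n) :
    NullMeasurableSet {t : ℝ | (∃ c, S.KM t c) ∧ S.NoLD t} volume := by
  have h1 : MeasurableSet {t : ℝ | S.Hyp t}ᶜ := (hHYO n S).measurableSet.compl
  refine h1.nullMeasurableSet.congr ?_
  obtain ⟨h2, h3, h4⟩ := hKM n S hconn
  filter_upwards [h2, hE0 n S hconn hnt hn] with t ht1 ht2
  show ({t : ℝ | S.Hyp t}ᶜ t) = ({t : ℝ | (∃ c, S.KM t c) ∧ S.NoLD t} t)
  apply propext
  constructor
  · intro h
    have h' : ¬ S.Hyp t := h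
    rcases ht1 with ht1 | ⟨c, hc⟩
    · exact absurd (h3 t ht1) h'
    · exact ⟨⟨c, hc⟩, ht2 hc.ok.gd⟩
  · rintro ⟨⟨c, hc⟩, _⟩
    exact h4 t c hc

theorem pf_U_0 (hE0 : E_0) (hHYO : M_HYO) (hKM : M_KM) (hEXI : M_EXI) (hPOS : M_POS)
    (hCOC : M_COC) (hW1 : W_1) (hPLU : U_PLU) (hCNT : U_CNT) (hMON : U_MON) (hV : V_0) :
    U_0 := by
  classical
  intro n S hconn hnt hcone hgen
  have hn : 0 < n := by
    rcases Nat.eq_zero_or_pos n with h | h
    · subst h
      exact absurd ⟨fun _ => 1, fun _ => one_pos, fun s => s.1.elim0⟩ hnt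
    · exact h
  by_contra hvol
  have hnm := null_meas hE0 hHYO hKM n S hconn hnt hn
  set E : Set ℝ := {t : ℝ | (∃ c, S.KM t c) ∧ S.NoLD t} with hEdef
  obtain ⟨α, hα, β, hβ, hαβ, hpos⟩ := two_pts hvol
  -- the measures
  have hex : ∀ t, ∃ p : Fin n → ℝ → ℝ, t ∈ E →
      (S.NM t p ∧ S.Orth (S.cc t p) ∧ (∃ s, S.cc t p s ≠ 0) ∧ S.SInc t p) := by
    intro t
    by_cases ht : t ∈ E
    · obtain ⟨⟨c, hc⟩, hld⟩ := ht
      obtain ⟨p, hp1, hp2, s, hs⟩ := hEXI n S t c hn hc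
      refine ⟨p, fun _ => ⟨hp1, hp2, ⟨s, hs⟩, ?_⟩⟩
      refine hPOS n S t p hc.ok.gd hc.tmin hp1.im ?_
      unfold Surf.cc at hs
      have m1 : S.xl t s.1 ≤ xi t (S.Q s) := xl_le_xi S t s.1 _
      have m2 : xi t (S.Q s) ≤ S.xr t s.1 := xi_le_xr S t s.1 _
      have m3 : S.xl t s.1 ≤ xi t (S.P s) := xl_le_xi S t s.1 _
      have m4 : xi t (S.P s) ≤ S.xr t s.1 := xi_le_xr S t s.1 _
      rcases le_total (xi t (S.Q s)) (xi t (S.P s)) with h | h
      · exact ⟨s.1, _, _, m1, h, m4, lt_of_le_of_ne (hp1.im.mono s.1 h)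
          (fun e => hs (by rw [e, sub_self]))⟩
      · exact ⟨s.1, _, _, m3, h, m2, lt_of_le_of_ne (hp1.im.mono s.1 h)
          (fun e => hs (by rw [e, sub_self]))⟩
    · exact ⟨fun _ _ => 0, fun h => absurd h ht⟩
  choose pp hpp using hex
  obtain ⟨hβ1, hβ2, hβ3, hβ4⟩ := hpp β hβ
  obtain ⟨hα1, hα2, hα3, hα4⟩ := hpp α hα
  set w : ℝ → ℝ := fun t => Surf.Om (S.cc t (pp t)) (S.cc β (pp β)) with hw
  have hwpos : ∀ t ∈ E, t < β → 0 < w t := by
    intro t ht htβ
    obtain ⟨ht1, _, _, ht4⟩ := hpp t ht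
    exact hW1 n S t β (pp t) (pp β) hn htβ ht1.im hβ1.im ht4 hβ4
  set P : ℝ → Fin n → ℝ → ℝ := fun t i x => (w t)⁻¹ * pp t i x with hP
  have hcc : ∀ t s, S.cc t (P t) s = (w t)⁻¹ * S.cc t (pp t) s := by
    intro t s
    simp only [Surf.cc, hP]
    ring
  have hPE : ∀ t ∈ E, t < β → S.NM t (P t) ∧ S.Orth (S.cc t (P t)) ∧ S.SInc t (P t) ∧
      Surf.Om (S.cc t (P t)) (S.cc β (pp β)) = 1 ∧ S.Coc (S.cc t (P t)) := by
    intro t ht htβ
    obtain ⟨ht1, ht2, _, ht4⟩ := hpp t ht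
    have hwt := hwpos t ht htβ
    have hwi : 0 < (w t)⁻¹ := inv_pos.mpr hwt
    have hNM : S.NM t (P t) := by
      refine ⟨⟨?_, ?_, ?_⟩, ?_, ?_⟩
      · intro i x y hxy
        exact mul_le_mul_of_nonneg_left (ht1.im.mono i hxy) hwi.le
      · intro i
        exact continuous_const.mul (ht1.im.cont i)
      · intro r x y h1 h2 h3
        have := ht1.im.glue r x y h1 h2 h3
        simp only [hP]
        rw [← mul_sub, ← mul_sub, this]
      · intro i x hx
        simp only [hP]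
        rw [ht1.left i x hx, mul_zero]
      · intro i x hx
        simp only [hP]
        rw [ht1.right i x hx]
    refine ⟨hNM, ?_, ?_, ?_, hCOC n S t (P t) hNM.im⟩
    · unfold Surf.Orth at ht2 ⊢
      have : ∑ s : Side n, Real.log (S.a s) * S.cc t (P t) s =
          (w t)⁻¹ * ∑ s : Side n, Real.log (S.a s) * S.cc t (pp t) s := by
        rw [Finset.mul_sum]
        refine Finset.sum_congr rfl (fun s _ => ?_)
        rw [hcc]
        ring
      rw [this, ht2, mul_zero]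
    · intro i x y h1 h2 h3
      exact mul_lt_mul_of_pos_left (ht4 i x y h1 h2 h3) hwi
    · have h1 : ∀ c : Side n → ℝ, Surf.Om (S.cc t (P t)) c =
          (w t)⁻¹ * Surf.Om (S.cc t (pp t)) c := by
        intro c
        unfold Surf.Om
        rw [Finset.mul_sum]
        refine Finset.sum_congr rfl (fun i _ => ?_)
        rw [hcc, hcc]
        ring
      rw [h1]
      exact inv_mul_cancel₀ hwt.ne'
  set K : Set ℝ := E ∩ Set.Ioo α β with hK
  have hKnm : NullMeasurableSet K volume := hnm.inter measurableSet_Ioo.nullMeasurableSet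
  set wα : ℝ := Surf.Om (S.cc α (pp α)) (S.cc β (pp β)) with hwα
  have hwα0 : 0 < wα := hW1 n S α β (pp α) (pp β) hn hαβ hα1.im hβ1.im hα4 hβ4
  set X : ℝ → ℝ := fun t => Surf.Om (S.cc α (pp α)) (S.cc t (P t)) / wα with hX
  have hXX : ∀ t ∈ K, ∀ t' ∈ K,
      Surf.Om (S.cc t (P t)) (S.cc t' (P t')) = X t' - X t := by
    intro t ht t' ht'
    obtain ⟨a1, a2, a3, a4, a5⟩ := hPE t ht.1 ht.2.2
    obtain ⟨b1, b2, b3, b4, b5⟩ := hPE t' ht'.1 ht'.2.2
    have h := hPLU n S hconn hnt hcone hgen (S.cc α (pp α)) (S.cc t (P t)) (S.cc t' (P t'))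
      (S.cc β (pp β)) (hCOC n S α _ hα1.im) a5 b5 (hCOC n S β _ hβ1.im) hα2 a2 b2 hβ2
    rw [a4, b4, mul_one, mul_one, ← hwα] at h
    simp only [hX]
    field_simp
    linarith
  have hlt : ∀ t ∈ K, ∀ t' ∈ K, t < t' →
      0 < Surf.Om (S.cc t (P t)) (S.cc t' (P t')) := by
    intro t ht t' ht' htt
    obtain ⟨a1, a2, a3, a4, a5⟩ := hPE t ht.1 ht.2.2
    obtain ⟨b1, b2, b3, b4, b5⟩ := hPE t' ht'.1 ht'.2.2
    exact hW1 n S t t' _ _ hn htt a1.im b1.im a3 b3
  have hmono : MonotoneOn X K := by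
    intro t ht t' ht' htt
    rcases htt.lt_or_eq with h | h
    · have h1 := hlt t ht t' ht' h
      rw [hXX t ht t' ht'] at h1
      linarith
    · rw [h]
  obtain ⟨K', hK'K, hK'c, hK'0, C, hC⟩ := hMON K X hKnm hpos hmono
  obtain ⟨⟨cb, hcb⟩, _⟩ := hβ
  have hcont := hCNT n S hconn hnt hcone hgen hn β cb (pp β) hcb hβ1 hβ2 hβ3 K' P (by
    intro t ht
    have htK := hK'K ht
    obtain ⟨a1, a2, a3, a4, a5⟩ := hPE t htK.1 htK.2.2
    exact ⟨htK.2.2, htK.1.1, htK.1.2, a1, a2, a4⟩)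
  obtain ⟨t, htK', f, hf, hinc⟩ := hV n S K' P C hn hK'c hK'0 (by
    intro t ht
    have htK := hK'K ht
    obtain ⟨a1, a2, a3, a4, a5⟩ := hPE t htK.1 htK.2.2
    obtain ⟨c, hc⟩ := htK.1.1
    exact ⟨hc.ok.gd, a1, a3⟩) hcont (by
    intro t ht t' ht' htt
    rw [hXX t (hK'K ht) t' (hK'K ht')]
    exact hC t ht t' ht' htt.le)
  have htK := hK'K htK'
  obtain ⟨a1, a2, a3, a4, a5⟩ := hPE t htK.1 htK.2.2
  refine htK.1.2 f hf ?_
  intro i x y h1 h2 h3
  have h4 := hinc i x y h1 h2.le h3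
  have h5 := a3 i x y h1 h2 h3
  linarith

end Pool.Agent.H35.GD
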