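import Pool.Agent.H25.GD.Targets

/-!
# Averages of monotone functions and a change of coordinates in the plane
-/

set_option autoImplicit false

namespace Pool.Agent.H35.GD

open Pool.Agent.H44.DU MeasureTheory Filter Topology

theorem mo_nonneg {p : ℝ → ℝ} (hp : Monotone p) {ε : ℝ} (hε : 0 < ε) (x : ℝ) :
    0 ≤ mo ε p x := by
  unfold mo
  have : p (x - ε) ≤ p (x + ε) := hp (by linarith)
  apply div_nonneg <;> linarith

theorem mo_cont {p : ℝ → ℝ} (hp : Continuous p) (ε : ℝ) : Continuous (mo ε p) := by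
  unfold mo
  fun_prop

/-- the integral of an average -/
theorem lint_mo {p : ℝ → ℝ} (hp : Monotone p) (hc : Continuous p) {ε : ℝ} (hε : 0 < ε)
    (a b : ℝ) :
    ∫⁻ x in Set.Icc a b, ENNReal.ofReal (mo ε p x) ≤
      ENNReal.ofReal (p (b + ε) - p (a - ε)) := by
  rcases le_or_gt a b with hab | hab
  · have hint : IntegrableOn (mo ε p) (Set.Icc a b) volume :=
      (mo_cont hc ε).continuousOn.integrableOn_Icc
    rw [← ofReal_integral_eq_lintegral_ofReal hint (ae_of_all _ (mo_nonneg hp hε))]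
    apply ENNReal.ofReal_le_ofReal
    rw [integral_Icc_eq_integral_Ioc, ← intervalIntegral.integral_of_le hab]
    unfold mo
    rw [intervalIntegral.integral_div, intervalIntegral.integral_sub
      (by apply Continuous.intervalIntegrable; fun_prop)
      (by apply Continuous.intervalIntegrable; fun_prop),
      intervalIntegral.integral_comp_add_right (fun x => p x),
      intervalIntegral.integral_comp_sub_right (fun x => p x)]
    have hI : ∀ u v : ℝ, IntervalIntegrable p volume u v := fun u v => hc.intervalIntegrable u v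
    have h1 : ∫ x in (a + ε)..(b + ε), p x =
        (∫ x in (a + ε)..(b - ε), p x) + ∫ x in (b - ε)..(b + ε), p x :=
      (intervalIntegral.integral_add_adjacent_intervals (hI _ _) (hI _ _)).symm
    have h2 : ∫ x in (a - ε)..(b - ε), p x =
        (∫ x in (a - ε)..(a + ε), p x) + ∫ x in (a + ε)..(b - ε), p x :=
      (intervalIntegral.integral_add_adjacent_intervals (hI _ _) (hI _ _)).symm
    have h3 : ∫ x in (b - ε)..(b + ε), p x ≤ ∫ x in (b - ε)..(b + ε), p (b + ε) := by
      apply intervalIntegral.integral_mono_on (by linarith) (hI _ _)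
        (intervalIntegrable_const)
      intro x hx
      exact hp hx.2
    have h4 : ∫ x in (a - ε)..(a + ε), p (a - ε) ≤ ∫ x in (a - ε)..(a + ε), p x := by
      apply intervalIntegral.integral_mono_on (by linarith) (intervalIntegrable_const)
        (hI _ _)
      intro x hx
      exact hp hx.1
    rw [intervalIntegral.integral_const, smul_eq_mul] at h3 h4
    rw [div_le_iff₀ (by linarith), h1, h2]
    have e1 : b + ε - (b - ε) = 2 * ε := by ring
    have e2 : a + ε - (a - ε) = 2 * ε := by ring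
    rw [e1] at h3
    rw [e2] at h4
    linarith
  · rw [Set.Icc_eq_empty (not_le.mpr hab)]
    simp

/-- the coordinates `(Y, k)` of the point `(Y + s k, k)` -/
theorem lint_C (f : ℂ → ENNReal) (hf : Measurable f) (s : ℝ) :
    ∫⁻ z, f z = ∫⁻ Y : ℝ, ∫⁻ k : ℝ, f ⟨Y + s * k, k⟩ := by
  have h0 : Measurable (fun w : ℝ × ℝ => f ⟨w.1, w.2⟩) :=
    hf.comp Complex.measurableEquivRealProd.symm.measurable
  have h1 : ∫⁻ z, f z = ∫⁻ w : ℝ × ℝ, f ⟨w.1, w.2⟩ := by
    have := (Complex.volume_preserving_equiv_real_prod.symm).lintegral_comp hf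
    rw [← this]
    rfl
  rw [h1, Measure.volume_eq_prod, lintegral_prod_symm' _ h0]
  have h2 : ∀ k : ℝ, ∫⁻ a : ℝ, f ⟨a, k⟩ = ∫⁻ Y : ℝ, f ⟨Y + s * k, k⟩ := fun k =>
    (lintegral_add_right_eq_self (fun a : ℝ => f ⟨a, k⟩) (s * k)).symm
  simp only [h2]
  apply lintegral_lintegral_swap
  apply Measurable.aemeasurable
  have h3 : Measurable (fun w : ℝ × ℝ => ((w.2 + s * w.1, w.1) : ℝ × ℝ)) := by fun_prop
  exact h0.comp h3

/-- a substitution -/
theorem lint_sub (g : ℝ → ENNReal) (hg : Measurable g) (Y c : ℝ) (hc : 0 < c) :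
    ENNReal.ofReal c * ∫⁻ k : ℝ, g (Y + c * k) = ∫⁻ x, g x := by
  have h1 : ∫⁻ k : ℝ, g (Y + c * k) = ENNReal.ofReal |c⁻¹| * ∫⁻ u, g (Y + u) := by
    have h2 : ∫⁻ k : ℝ, g (Y + c * k) = ∫⁻ u, g (Y + u) ∂(Measure.map (c * ·) volume) := by
      exact (lintegral_map (μ := volume) (hg.comp (measurable_const_add Y))
        (measurable_const_mul c)).symm
    rw [h2, Real.map_volume_mul_left hc.ne', lintegral_smul_measure, smul_eq_mul]
  rw [h1, ← mul_assoc, ← ENNReal.ofReal_mul hc.le, abs_of_pos (inv_pos.mpr hc),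
    mul_inv_cancel₀ hc.ne', ENNReal.ofReal_one, one_mul]
  exact lintegral_add_left_eq_self g Y

end Pool.Agent.H35.GD
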