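import Pool.Agent.H35.GD.VP1

/-!
# The averages of two invariant measures and their intersection (V_PAIR)
-/

set_option autoImplicit false

namespace Pool.Agent.H35.GD

open Pool.Agent.H44.DU MeasureTheory Filter Topology

theorem xi_conv (t : ℝ) (z w : ℂ) (a b : ℝ) :
    xi t (a • z + b • w) = a * xi t z + b * xi t w := by
  simp [xi]
  ring

/-- the points of a triangle have a coordinate between the smallest and the largest one -/
theorem tri_xi {n : ℕ} (S : Surf n) (t : ℝ) (i : Fin n) {w : ℂ} (hw : w ∈ S.tri i) :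
    S.xl t i ≤ xi t w ∧ xi t w ≤ S.xr t i := by
  have h1 : S.tri i ⊆ {w : ℂ | S.xl t i ≤ xi t w ∧ xi t w ≤ S.xr t i} := by
    apply convexHull_min
    · rintro _ ⟨k, rfl⟩
      refine ⟨?_, ?_⟩
      · unfold Surf.xl
        fin_cases k
        · exact min_le_left _ _
        · exact (min_le_right _ _).trans (min_le_left _ _)
        · exact (min_le_right _ _).trans (min_le_right _ _)
      · unfold Surf.xr
        fin_cases k
        · exact le_max_left _ _
        · exact (le_max_left _ _).trans (le_max_right _ _)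
        · exact (le_max_right _ _).trans (le_max_right _ _)
    · rintro z ⟨hz1, hz2⟩ z' ⟨hz1', hz2'⟩ a b ha hb hab
      show S.xl t i ≤ xi t (a • z + b • z') ∧ xi t (a • z + b • z') ≤ S.xr t i
      rw [xi_conv]
      have e : b = 1 - a := by linarith
      subst e
      constructor <;> nlinarith
  exact h1 hw

/-- every coordinate between the smallest and the largest one is taken in the triangle -/
theorem tri_ex {n : ℕ} (S : Surf n) (t : ℝ) (i : Fin n) {y : ℝ} (h1 : S.xl t i < y)
    (h2 : y < S.xr t i) : ∃ z ∈ S.tri i, xi t z = y := by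
  have hl : ∃ k, xi t (S.v i k) = S.xl t i := by
    unfold Surf.xl
    rcases min_choice (xi t (S.v i 0)) (min (xi t (S.v i 1)) (xi t (S.v i 2))) with h | h
    · exact ⟨0, h.symm⟩
    · rcases min_choice (xi t (S.v i 1)) (xi t (S.v i 2)) with h' | h'
      · exact ⟨1, by rw [h, h']⟩
      · exact ⟨2, by rw [h, h']⟩
  have hr : ∃ k, xi t (S.v i k) = S.xr t i := by
    unfold Surf.xr
    rcases max_choice (xi t (S.v i 0)) (max (xi t (S.v i 1)) (xi t (S.v i 2))) with h | h
    · exact ⟨0, h.symm⟩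
    · rcases max_choice (xi t (S.v i 1)) (xi t (S.v i 2)) with h' | h'
      · exact ⟨1, by rw [h, h']⟩
      · exact ⟨2, by rw [h, h']⟩
  obtain ⟨k, hk⟩ := hl
  obtain ⟨k', hk'⟩ := hr
  set lam : ℝ := (y - S.xl t i) / (S.xr t i - S.xl t i) with hlam
  have hd : 0 < S.xr t i - S.xl t i := by linarith
  have hl0 : 0 ≤ lam := div_nonneg (by linarith) hd.le
  have hl1 : lam ≤ 1 := by
    rw [hlam, div_le_one hd]
    linarith
  refine ⟨(1 - lam) • S.v i k + lam • S.v i k', ?_, ?_⟩
  · exact (convex_convexHull ℝ (Set.range (S.v i)))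
      (subset_convexHull ℝ _ ⟨k, rfl⟩) (subset_convexHull ℝ _ ⟨k', rfl⟩)
      (by linarith) hl0 (by ring)
  · rw [xi_conv, hk, hk']
    have : lam * (S.xr t i - S.xl t i) = y - S.xl t i := by
      rw [hlam]
      field_simp
    linarith

/-- the point with given changes of the two coordinates -/
theorem shift_pt {t t' ε η B : ℝ} (ht : t < t') (hB : |t| ≤ B) (hB' : |t'| ≤ B) (hε : 0 < ε)
    (hbd : 8 * (1 + B) * ε ≤ η * (t' - t)) (z : ℂ) (dx dy : ℝ) (hdx : |dx| ≤ ε)
    (hdy : |dy| ≤ ε) :
    ∃ w : ℂ, ‖w - z‖ ≤ η ∧ xi t w = xi t z + dx ∧ xi t' w = xi t' z + dy := by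
  have hc : 0 < t' - t := by linarith
  have hB0 : 0 ≤ B := (abs_nonneg t).trans hB
  set b : ℝ := (dx - dy) / (t' - t) with hb
  have hbc : b * (t' - t) = dx - dy := by
    rw [hb]
    field_simp
  refine ⟨z + ⟨dx + t * b, b⟩, ?_, ?_, ?_⟩
  · rw [add_sub_cancel_left]
    have h1 : ‖(⟨dx + t * b, b⟩ : ℂ)‖ ≤ |dx + t * b| + |b| := Complex.norm_le_abs_re_add_abs_im _
    have h2 : |dx + t * b| ≤ ε + B * |b| := by
      calc |dx + t * b| ≤ |dx| + |t * b| := abs_add_le _ _
        _ ≤ ε + B * |b| := by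
          rw [abs_mul]
          exact add_le_add hdx (mul_le_mul_of_nonneg_right hB (abs_nonneg b))
    have h3 : |b| * (t' - t) ≤ 2 * ε := by
      have : |b| * (t' - t) = |dx - dy| := by
        rw [← hbc, abs_mul, abs_of_pos hc]
      rw [this]
      calc |dx - dy| ≤ |dx| + |dy| := abs_sub _ _
        _ ≤ 2 * ε := by linarith
    have h4 : t' - t ≤ 2 * B := by
      have := abs_le.mp hB
      have := abs_le.mp hB'
      linarith [this.2, (abs_le.mp hB).1]
    have h5 : (ε + (1 + B) * |b|) * (t' - t) ≤ η * (t' - t) := by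
      nlinarith [mul_nonneg hB0 hε.le, mul_le_mul_of_nonneg_left h3 (by linarith : 0 ≤ 1 + B),
        mul_le_mul_of_nonneg_left h4 hε.le]
    have h6 := le_of_mul_le_mul_right h5 hc
    nlinarith
  · rw [xi_add]
    simp [xi]
  · rw [xi_add]
    simp only [xi]
    have : dx + t * b - t' * b = dy := by linarith
    linarith

/-- the average is the mass of an interval -/
theorem mo_mass {q : ℝ → ℝ} {ν : Measure ℝ} (hD : Dist q ν) {ε : ℝ} (hε : 0 < ε) (y : ℝ) :
    ENNReal.ofReal (mo ε q y) = ENNReal.ofReal (2 * ε)⁻¹ * ν (Set.Ioc (y - ε) (y + ε)) := by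
  rw [hD (y - ε) (y + ε) (by linarith), ← ENNReal.ofReal_mul (by positivity)]
  congr 1
  unfold mo
  rw [div_eq_inv_mul]

theorem xi_meas (t : ℝ) : Measurable (xi t) := by
  unfold xi
  fun_prop

/-- the estimate for a fixed leaf `y'` of slope `t'` -/
theorem leaf_le {t t' ε L R : ℝ} {p : ℝ → ℝ} {U : Set ℂ} (ht : t < t') (hε : 0 < ε)
    (hp : Monotone p) (hc : Continuous p) (hU : MeasurableSet U) (y' : ℝ)
    (hgeo : ∀ z ∈ U, |y' - xi t' z| ≤ ε → L ≤ xi t z - ε ∧ xi t z + ε ≤ R) :
    ENNReal.ofReal (t' - t) * ∫⁻ z in U, ENNReal.ofReal (mo ε p (xi t z)) *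
      (Set.Ioc (xi t' z - ε) (xi t' z + ε)).indicator (fun _ => (1 : ENNReal)) y' ≤
    ENNReal.ofReal (2 * ε) * ENNReal.ofReal (p R - p L) := by
  classical
  have hct : 0 < t' - t := by linarith
  set f : ℂ → ENNReal := fun z => ENNReal.ofReal (mo ε p (xi t z)) *
      (Set.Ioc (xi t' z - ε) (xi t' z + ε)).indicator (fun _ => (1 : ENNReal)) y' with hf
  have hmp : Measurable (mo ε p) := (mo_cont hc ε).measurable
  have hfm : Measurable f := by
    apply Measurable.mul
    · exact (hmp.comp (xi_meas t)).ennreal_ofReal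
    · have : (fun z : ℂ => (Set.Ioc (xi t' z - ε) (xi t' z + ε)).indicator
          (fun _ => (1 : ENNReal)) y') =
          ({z : ℂ | xi t' z - ε < y'} ∩ {z : ℂ | y' ≤ xi t' z + ε}).indicator
            (fun _ => (1 : ENNReal)) := by
        ext z
        simp only [Set.indicator_apply, Set.mem_Ioc, Set.mem_inter_iff, Set.mem_ofPred_eq]
      rw [this]
      apply Measurable.indicator measurable_const
      apply MeasurableSet.inter
      · exact measurableSet_lt ((xi_meas t').sub_const ε) measurable_const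
      · exact measurableSet_le measurable_const ((xi_meas t').add_const ε)
  set g : ℝ → ENNReal := (Set.Icc (L + ε) (R - ε)).indicator
    (fun x => ENNReal.ofReal (mo ε p x)) with hg
  have hgm : Measurable g := hmp.ennreal_ofReal.indicator measurableSet_Icc
  have hxi : ∀ Y k : ℝ, xi t' ⟨Y + t' * k, k⟩ = Y := by
    intro Y k
    simp [xi]
  have hxi2 : ∀ Y k : ℝ, xi t ⟨Y + t' * k, k⟩ = Y + (t' - t) * k := by
    intro Y k
    simp [xi]
    ring
  rw [← lintegral_indicator hU, lint_C _ (hfm.indicator hU) t',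
    ← lintegral_const_mul']
  swap
  · exact ENNReal.ofReal_ne_top
  have key : ∀ Y : ℝ, ENNReal.ofReal (t' - t) * ∫⁻ k : ℝ, U.indicator f ⟨Y + t' * k, k⟩ ≤
      (Set.Icc (y' - ε) (y' + ε)).indicator (fun _ => ENNReal.ofReal (p R - p L)) Y := by
    intro Y
    by_cases hY : Y ∈ Set.Icc (y' - ε) (y' + ε)
    · rw [Set.indicator_of_mem hY]
      have h1 : ∀ k : ℝ, U.indicator f ⟨Y + t' * k, k⟩ ≤ g (Y + (t' - t) * k) := by
        intro k
        by_cases hz : (⟨Y + t' * k, k⟩ : ℂ) ∈ U
        · rw [Set.indicator_of_mem hz]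
          have h2 := hgeo _ hz (by
            rw [hxi, abs_le]
            constructor <;> linarith [hY.1, hY.2])
          rw [hxi2] at h2
          have h3 : Y + (t' - t) * k ∈ Set.Icc (L + ε) (R - ε) :=
            ⟨by linarith [h2.1], by linarith [h2.2]⟩
          simp only [hg, hf]
          rw [Set.indicator_of_mem h3, hxi2]
          calc _ ≤ ENNReal.ofReal (mo ε p (Y + (t' - t) * k)) * 1 := by
                gcongr
                apply Set.indicator_le_self'
                intro _ _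
                exact zero_le
            _ = _ := mul_one _
        · rw [Set.indicator_of_notMem hz]
          exact zero_le
      calc ENNReal.ofReal (t' - t) * ∫⁻ k : ℝ, U.indicator f ⟨Y + t' * k, k⟩
          ≤ ENNReal.ofReal (t' - t) * ∫⁻ k : ℝ, g (Y + (t' - t) * k) := by
            gcongr
            exact h1 _
        _ = ∫⁻ x, g x := lint_sub g hgm Y (t' - t) hct
        _ = ∫⁻ x in Set.Icc (L + ε) (R - ε), ENNReal.ofReal (mo ε p x) := by
            rw [hg, lintegral_indicator measurableSet_Icc]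
        _ ≤ ENNReal.ofReal (p (R - ε + ε) - p (L + ε - ε)) := lint_mo hp hc hε _ _
        _ = ENNReal.ofReal (p R - p L) := by
            rw [sub_add_cancel, add_sub_cancel_right]
    · rw [Set.indicator_of_notMem hY]
      have h1 : ∀ k : ℝ, U.indicator f ⟨Y + t' * k, k⟩ = 0 := by
        intro k
        by_cases hz : (⟨Y + t' * k, k⟩ : ℂ) ∈ U
        · rw [Set.indicator_of_mem hz]
          simp only [hf]
          rw [hxi, Set.indicator_of_notMem, mul_zero]
          intro h2
          exact hY ⟨by linarith [h2.2], by linarith [h2.1]⟩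
        · rw [Set.indicator_of_notMem hz]
      simp only [h1]
      simp
  calc ∫⁻ Y : ℝ, ENNReal.ofReal (t' - t) * ∫⁻ k : ℝ, U.indicator f ⟨Y + t' * k, k⟩
      ≤ ∫⁻ Y, (Set.Icc (y' - ε) (y' + ε)).indicator
          (fun _ => ENNReal.ofReal (p R - p L)) Y := lintegral_mono key
    _ = ENNReal.ofReal (2 * ε) * ENNReal.ofReal (p R - p L) := by
        rw [lintegral_indicator measurableSet_Icc, setLIntegral_const, Real.volume_Icc, mul_comm]
        congr 2
        ring

theorem core_le {t t' ε xl xr : ℝ} {p q l h : ℝ → ℝ} {U : Set ℂ} {ν : Measure ℝ}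
    [IsLocallyFiniteMeasure ν] (ht : t < t') (hε : 0 < ε) (hp : Monotone p)
    (hc : Continuous p) (hD : Dist q ν) (hU : MeasurableSet U)
    (hrange : ∀ z ∈ U, xl < xi t' z - ε ∧ xi t' z + ε < xr)
    (hgeo : ∀ y', xl < y' → y' < xr → ∀ z ∈ U, |y' - xi t' z| ≤ ε →
      l y' ≤ xi t z - ε ∧ xi t z + ε ≤ h y') :
    ENNReal.ofReal (t' - t) * ∫⁻ z in U, ENNReal.ofReal (mo ε p (xi t z)) *
      ENNReal.ofReal (mo ε q (xi t' z)) ≤
    ∫⁻ y in Set.Ioo xl xr, ENNReal.ofReal (p (h y) - p (l y)) ∂ν := by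
  classical
  set A : ℂ → ENNReal := fun z => ENNReal.ofReal (mo ε p (xi t z)) with hA
  set K : ℂ → ℝ → ENNReal := fun z y' =>
    (Set.Ioc (xi t' z - ε) (xi t' z + ε)).indicator (fun _ => (1 : ENNReal)) y' with hKd
  have hAm : Measurable A := ((mo_cont hc ε).measurable.comp (xi_meas t)).ennreal_ofReal
  have hKm : Measurable (Function.uncurry K) := by
    have : Function.uncurry K =
        ({w : ℂ × ℝ | xi t' w.1 - ε < w.2} ∩ {w : ℂ × ℝ | w.2 ≤ xi t' w.1 + ε}).indicator
          (fun _ => (1 : ENNReal)) := by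
      ext w
      obtain ⟨z, y⟩ := w
      simp only [Function.uncurry, hKd, Set.indicator_apply, Set.mem_Ioc, Set.mem_inter_iff,
        Set.mem_ofPred_eq]
    rw [this]
    apply Measurable.indicator measurable_const
    have hx : Measurable (fun w : ℂ × ℝ => xi t' w.1) := (xi_meas t').comp measurable_fst
    apply MeasurableSet.inter
    · exact measurableSet_lt (hx.sub_const ε) measurable_snd
    · exact measurableSet_le measurable_snd (hx.add_const ε)
  have h1 : ∀ z ∈ U, A z * ENNReal.ofReal (mo ε q (xi t' z)) =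
      ∫⁻ y in Set.Ioo xl xr, ENNReal.ofReal (2 * ε)⁻¹ * (A z * K z y) ∂ν := by
    intro z hz
    have hKz : Measurable (K z) := by
      simp only [hKd]
      exact Measurable.indicator measurable_const measurableSet_Ioc
    rw [lintegral_const_mul _ (hKz.const_mul _), lintegral_const_mul _ hKz]
    have h2 : ∫⁻ y in Set.Ioo xl xr, K z y ∂ν = ν (Set.Ioc (xi t' z - ε) (xi t' z + ε)) := by
      simp only [hKd]
      rw [lintegral_indicator measurableSet_Ioc, setLIntegral_const, one_mul,
        Measure.restrict_apply measurableSet_Ioc]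
      congr 1
      apply Set.inter_eq_left.mpr
      intro y hy
      have h3 := hrange z hz
      exact ⟨h3.1.trans hy.1, lt_of_le_of_lt hy.2 h3.2⟩
    rw [h2, mo_mass hD hε]
    ring
  calc ENNReal.ofReal (t' - t) * ∫⁻ z in U, A z * ENNReal.ofReal (mo ε q (xi t' z))
      = ENNReal.ofReal (t' - t) * ∫⁻ z in U,
          ∫⁻ y in Set.Ioo xl xr, ENNReal.ofReal (2 * ε)⁻¹ * (A z * K z y) ∂ν := by
        congr 1
        exact setLIntegral_congr_fun hU h1
    _ = ENNReal.ofReal (t' - t) * ∫⁻ y in Set.Ioo xl xr,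
          (∫⁻ z in U, ENNReal.ofReal (2 * ε)⁻¹ * (A z * K z y)) ∂ν := by
        congr 1
        apply lintegral_lintegral_swap
        apply Measurable.aemeasurable
        exact ((hAm.comp measurable_fst).mul hKm).const_mul _
    _ = ∫⁻ y in Set.Ioo xl xr, ENNReal.ofReal (2 * ε)⁻¹ * (ENNReal.ofReal (t' - t) *
          ∫⁻ z in U, A z * K z y) ∂ν := by
        rw [← lintegral_const_mul' _ _ ENNReal.ofReal_ne_top]
        apply lintegral_congr
        intro y
        rw [lintegral_const_mul' _ _ ENNReal.ofReal_ne_top]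
        ring
    _ ≤ ∫⁻ y in Set.Ioo xl xr, ENNReal.ofReal (p (h y) - p (l y)) ∂ν := by
        apply setLIntegral_mono' measurableSet_Ioo
        intro y hy
        have h4 := leaf_le (L := l y) (R := h y) ht hε hp hc hU y
          (fun z hz hzy => hgeo y hy.1 hy.2 z hz hzy)
        calc ENNReal.ofReal (2 * ε)⁻¹ * (ENNReal.ofReal (t' - t) * ∫⁻ z in U, A z * K z y)
            ≤ ENNReal.ofReal (2 * ε)⁻¹ * (ENNReal.ofReal (2 * ε) *
                ENNReal.ofReal (p (h y) - p (l y))) := by
              gcongr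
          _ = ENNReal.ofReal (p (h y) - p (l y)) := by
              rw [← mul_assoc, ← ENNReal.ofReal_mul (by positivity),
                inv_mul_cancel₀ (by positivity), ENNReal.ofReal_one, one_mul]

theorem pf_V_PAIR (hK : W_KEY) : V_PAIR := by
  classical
  intro n S t t' ε η B p q i U ht hB hB' hε hη hbd hp hq hU hUη
  obtain ⟨ν, l, h, hD, hlf, hns, hlh, -, hint, hOm⟩ := hK n S t t' p q ht.le hp hq
  have hc : 0 < t' - t := by linarith
  have hB0 : 0 ≤ B := (abs_nonneg t).trans hB
  -- every term of the sum is nonnegative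
  have hF : ∀ j, ∀ y ∈ Set.Ioo (S.xl t' j) (S.xr t' j), 0 ≤ p j (h j y) - p j (l j y) := by
    intro j y hy
    obtain ⟨z, hz, hzy⟩ := tri_ex S t' j hy.1 hy.2
    have h1 := hlh j z hz (by rw [hzy]; exact hy.1) (by rw [hzy]; exact hy.2)
    rw [hzy] at h1
    have := hp.mono j (h1.1.trans h1.2)
    linarith
  have hterm : ∀ j, 0 ≤ ∫ y in Set.Ioo (S.xl t' j) (S.xr t' j),
      (p j (h j y) - p j (l j y)) ∂(ν j) := fun j =>
    setIntegral_nonneg measurableSet_Ioo (hF j)
  have hOm2 : 2 * ∫ y in Set.Ioo (S.xl t' i) (S.xr t' i), (p i (h i y) - p i (l i y)) ∂(ν i) ≤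
      Surf.Om (S.cc t p) (S.cc t' q) := by
    rw [hOm]
    have := Finset.single_le_sum (f := fun j => ∫ y in Set.Ioo (S.xl t' j) (S.xr t' j),
      (p j (h j y) - p j (l j y)) ∂(ν j)) (fun j _ => hterm j) (Finset.mem_univ i)
    linarith
  refine le_trans ?_ hOm2
  -- the geometry
  have hεη : ε < η := by
    have h4 : t' - t ≤ 2 * B := by
      linarith [(abs_le.mp hB').2, (abs_le.mp hB).1]
    have h5 : 8 * (1 + B) * ε ≤ η * (2 * B) :=
      hbd.trans (mul_le_mul_of_nonneg_left h4 hη.le)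
    by_contra hcon
    push Not at hcon
    nlinarith [mul_nonneg hB0 hη.le, mul_le_mul_of_nonneg_left hcon hB0]
  have hrange : ∀ z ∈ U, S.xl t' i < xi t' z - ε ∧ xi t' z + ε < S.xr t' i := by
    intro z hz
    have h1 : xi t' (z + (η : ℂ)) = xi t' z + η := by
      simp [xi]
      ring
    have h2 : xi t' (z - (η : ℂ)) = xi t' z - η := by
      simp [xi]
      ring
    have h3 := (tri_xi S t' i (hUη z hz (z + (η : ℂ)) (by
      rw [add_sub_cancel_left]
      simp [abs_of_pos hη]))).2
    have h4 := (tri_xi S t' i (hUη z hz (z - (η : ℂ)) (by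
      rw [show z - (η : ℂ) - z = -(η : ℂ) by ring, norm_neg]
      simp [abs_of_pos hη]))).1
    rw [h1] at h3
    rw [h2] at h4
    constructor <;> linarith
  have hgeo : ∀ y', S.xl t' i < y' → y' < S.xr t' i → ∀ z ∈ U, |y' - xi t' z| ≤ ε →
      l i y' ≤ xi t z - ε ∧ xi t z + ε ≤ h i y' := by
    intro y' hy1 hy2 z hz hzy
    have hεa : |ε| ≤ ε := by rw [abs_of_pos hε]
    have hεb : |-ε| ≤ ε := by rw [abs_neg, abs_of_pos hε]
    obtain ⟨w, hw1, hw2, hw3⟩ := shift_pt ht hB hB' hε hbd z (-ε) (y' - xi t' z) hεb hzy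
    obtain ⟨w', hw1', hw2', hw3'⟩ := shift_pt ht hB hB' hε hbd z ε (y' - xi t' z) hεa hzy
    have e : xi t' z + (y' - xi t' z) = y' := by ring
    rw [e] at hw3 hw3'
    have h1 := hlh i w (hUη z hz w hw1) (by rw [hw3]; exact hy1) (by rw [hw3]; exact hy2)
    have h2 := hlh i w' (hUη z hz w' hw1') (by rw [hw3']; exact hy1) (by rw [hw3']; exact hy2)
    rw [hw3, hw2] at h1
    rw [hw3', hw2'] at h2
    exact ⟨by linarith [h1.1], h2.2⟩
  have := hlf i
  have hcore := core_le (xl := S.xl t' i) (xr := S.xr t' i) (l := l i) (h := h i) ht hε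
    (hp.mono i) (hp.cont i) (hD i) hU hrange hgeo
  have hmq : Measurable (mo ε (q i)) := (mo_cont (hq.cont i) ε).measurable
  have hmp : Measurable (mo ε (p i)) := (mo_cont (hp.cont i) ε).measurable
  have hnn : ∀ z, 0 ≤ mo ε (p i) (xi t z) * mo ε (q i) (xi t' z) := fun z =>
    mul_nonneg (mo_nonneg (hp.mono i) hε _) (mo_nonneg (hq.mono i) hε _)
  have hI : ∫ z in U, mo ε (p i) (xi t z) * mo ε (q i) (xi t' z) =
      (∫⁻ z in U, ENNReal.ofReal (mo ε (p i) (xi t z)) *
        ENNReal.ofReal (mo ε (q i) (xi t' z))).toReal := by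
    rw [integral_eq_lintegral_of_nonneg_ae (ae_of_all _ hnn)
      (((hmp.comp (xi_meas t)).mul (hmq.comp (xi_meas t'))).aestronglyMeasurable)]
    congr 1
    apply lintegral_congr
    intro z
    rw [ENNReal.ofReal_mul (mo_nonneg (hp.mono i) hε _)]
  have hR : ∫⁻ y in Set.Ioo (S.xl t' i) (S.xr t' i),
      ENNReal.ofReal (p i (h i y) - p i (l i y)) ∂(ν i) =
      ENNReal.ofReal (∫ y in Set.Ioo (S.xl t' i) (S.xr t' i),
        (p i (h i y) - p i (l i y)) ∂(ν i)) := by
    rw [ofReal_integral_eq_lintegral_ofReal (hint i)]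
    rw [Filter.EventuallyLE, ae_restrict_iff' measurableSet_Ioo]
    exact ae_of_all _ (hF i)
  rw [hR] at hcore
  have h6 := ENNReal.toReal_mono ENNReal.ofReal_ne_top hcore
  rw [ENNReal.toReal_mul, ENNReal.toReal_ofReal hc.le, ENNReal.toReal_ofReal (hterm i),
    ← hI] at h6
  linarith

end Pool.Agent.H35.GD
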